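import Pool.Agent.MVO.StmtsZ
import Pool.Agent.Helper14_MV.B2
import Pool.Agent.Helper2_MV.Keep

/-!
# The systems of identities of the classification for index two (MP_23468a_al)

Everything is about varieties with `x² ≈ x^(n+2)`, `n ≥ 1`, for which `xyx` is an isoterm.
`S u v` stands for: the variety satisfies the identity `u ≈ v`; words are lists of letters, the letters
`0, 1, 2, 3, 4` are written `x, y, t, s, r` in the comments.  `HK` in the names: `1` = light (one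
occurrence in this block), `H` = heavy, `0` = no occurrence; one entry for each block between the simple
letters `t, s, r`.  The lists are those of helper65 (note 3988) with helper41's check (note 3986).
-/

namespace Pool.Agent.MWZ

/-- `x^k` -/
abbrev X (k : ℕ) : List ℕ := List.replicate k 0

section

variable (n : ℕ) (S : List ℕ → List ℕ → Prop)

/-- `x² ≈ x^(n+2)` -/
def Per : Prop := S (X 2) (X (n + 2))

/-! ### identities with one multiple letter -/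

/-- `x²tx ≈ x²tx^(n+1)` -/
def R : Prop := S [0, 0, 2, 0] (X 2 ++ 2 :: X (n + 1))
/-- `xtx² ≈ x^(n+1)tx²` -/
def R' : Prop := S [0, 2, 0, 0] (X (n + 1) ++ 2 :: X 2)
/-- `tx² ≈ x^(2n)tx²` -/
def G : Prop := S [2, 0, 0] (X (2 * n) ++ 2 :: X 2)
/-- `xtxsx ≈ xtxsx^(n+1)` -/
def J : Prop := S [0, 2, 0, 3, 0] (X 1 ++ 2 :: (X 1 ++ 3 :: X (n + 1)))
/-- `xtxsx ≈ x^(n+1)txsx` -/
def J' : Prop := S [0, 2, 0, 3, 0] (X (n + 1) ++ 2 :: (X 1 ++ 3 :: X 1))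
/-- `xtxsx ≈ xtx^(n+1)sx^(n+1)` -/
def K : Prop := S [0, 2, 0, 3, 0] (X 1 ++ 2 :: (X (n + 1) ++ 3 :: X (n + 1)))
/-- `xtxsx ≈ x^(n+1)tx^(n+1)sx` -/
def K' : Prop := S [0, 2, 0, 3, 0] (X (n + 1) ++ 2 :: (X (n + 1) ++ 3 :: X 1))
/-- `xtxsx ≈ x^(n+1)tx^(n+1)sx^(n+1)` -/
def L : Prop := S [0, 2, 0, 3, 0] (X (n + 1) ++ 2 :: (X (n + 1) ++ 3 :: X (n + 1)))

/-! ### exchange of two adjacent powers -/

/-- `xytxsy ≈ yxtxsy`: adjacent non-last occurrences commute -/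
def S1 : Prop := S [0, 1, 2, 0, 3, 1] [1, 0, 2, 0, 3, 1]
/-- `xtxysy ≈ xtyxsy`: an adjacent non-first and non-last occurrence commute -/
def S2 : Prop := S [0, 2, 0, 1, 3, 1] [0, 2, 1, 0, 3, 1]
/-- `x²y² ≈ y²x²` -/
def R0 : Prop := S [0, 0, 1, 1] [1, 1, 0, 0]
/-- `xtxy² ≈ xty²x` -/
def E1 : Prop := S [0, 2, 0, 1, 1] [0, 2, 1, 1, 0]
/-- `y²txsxy² ≈ y²txsy²x` -/
def E2 : Prop := S [1, 1, 2, 0, 3, 0, 1, 1] [1, 1, 2, 0, 3, 1, 1, 0]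
/-- `xytxy² ≈ yxty²x` -/
def E3 : Prop := S [0, 1, 2, 0, 1, 1] [1, 0, 2, 1, 1, 0]
/-- `x²ty²sxy ≈ x²ty²syx` -/
def E4 : Prop := S [0, 0, 2, 1, 1, 3, 0, 1] [0, 0, 2, 1, 1, 3, 1, 0]
/-- `y²txsy²rxy ≈ y²txsy²ryx` -/
def E5 : Prop := S [1, 1, 2, 0, 3, 1, 1, 4, 0, 1] [1, 1, 2, 0, 3, 1, 1, 4, 1, 0]
/-- `xy²txy ≈ y²xtyx` -/
def E6 : Prop := S [0, 1, 1, 2, 0, 1] [1, 1, 0, 2, 1, 0]
/-- `xy²txy² ≈ y²xty²x` -/
def E7 : Prop := S [0, 1, 1, 2, 0, 1, 1] [1, 1, 0, 2, 1, 1, 0]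
/-- `xty²sxy ≈ xty²syx` -/
def E8 : Prop := S [0, 2, 1, 1, 3, 0, 1] [0, 2, 1, 1, 3, 1, 0]
/-- `x²tysxy ≈ x²tysyx` -/
def E9 : Prop := S [0, 0, 2, 1, 3, 0, 1] [0, 0, 2, 1, 3, 1, 0]

/-! ### the eight systems over `S1`, `S2`, `R0` (only the order of the last occurrences matters) -/

/-- a1, a2, a3, a4 of note 3988 -/
def SysAR : Prop := R n S ∧ ((G n S ∧ L n S) ∨ (J n S ∧ E2 S) ∨ E1 S ∨ (L n S ∧ E3 S))

/-- b3, b4, b5, b7 of note 3988 -/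
def SysAR' : Prop := R' n S ∧ ((J' n S ∧ E1 S ∧ E4 S ∧ E5 S) ∨ (K' n S ∧ E1 S ∧ E4 S ∧ E6 S) ∨
  (G n S ∧ K' n S ∧ E4 S ∧ E7 S) ∨ (E8 S ∧ E9 S))

/-- the eight systems -/
def SysA : Prop := S1 S ∧ S2 S ∧ R0 S ∧ (SysAR n S ∨ SysAR' n S)

/-! ### the LR world: for two letters with exactly one common block the three states `xy`, `yx`,
overlapping -/

/-- `p xy q x c y r ≈ p yx q x c y r`, if every letter of `c` occurs at least twice in this word -/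
abbrev F : Prop := MVO.Sys.F S
/-- `p x c y q xy r ≈ p x c y q yx r`, if every letter of `c` occurs at least twice in this word -/
abbrev F' : Prop := MVO.Sys.F' S

/-- `p x c x q ≈ p x^(n+1) c x q`, if every letter of `c` occurs at least twice in this word -/
def I1 : Prop := ∀ (p c q : List ℕ) (x : ℕ), MVO.Sys.Mul c (p ++ x :: (c ++ x :: q)) →
  S (p ++ x :: (c ++ x :: q)) (p ++ (List.replicate (n + 1) x ++ (c ++ x :: q)))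

/-- `p x c x d x q ≈ p xx c d x q`, if every letter of `c` and `d` occurs at least twice in this
word -/
def I2 : Prop := ∀ (p c d q : List ℕ) (x : ℕ),
  MVO.Sys.Mul (c ++ d) (p ++ x :: (c ++ x :: (d ++ x :: q))) →
    S (p ++ x :: (c ++ x :: (d ++ x :: q))) (p ++ x :: x :: (c ++ (d ++ x :: q)))

/-- the base of the LR world -/
def BaseH : Prop := F S ∧ F' S ∧ I1 n S ∧ I2 S

/-- `xytxsy² ≈ yxtxsy²` -/
def H1 : Prop := S [0, 1, 2, 0, 3, 1, 1] [1, 0, 2, 0, 3, 1, 1]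
/-- `xtxysy² ≈ xtyxsy²` -/
def H2 : Prop := S [0, 2, 0, 1, 3, 1, 1] [0, 2, 1, 0, 3, 1, 1]
/-- `xytx²sy ≈ yxtx²sy` -/
def H3 : Prop := S [0, 1, 2, 0, 0, 3, 1] [1, 0, 2, 0, 0, 3, 1]
/-- `x²yty ≈ yx²ty` -/
def H4 : Prop := S [0, 0, 1, 2, 1] [1, 0, 0, 2, 1]

/-- `x²yty² ≈ yx²ty²` -/
def T1 : Prop := S [0, 0, 1, 2, 1, 1] [1, 0, 0, 2, 1, 1]
/-- `xytx²sy² ≈ yxtx²sy²` -/
def T2 : Prop := S [0, 1, 2, 0, 0, 3, 1, 1] [1, 0, 2, 0, 0, 3, 1, 1]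
/-- `xy²txsy² ≈ y²xtxsy²` -/
def T3 : Prop := S [0, 1, 1, 2, 0, 3, 1, 1] [1, 1, 0, 2, 0, 3, 1, 1]
/-- `xtxy² ≈ xtyxy` -/
def T4 : Prop := S [0, 2, 0, 1, 1] [0, 2, 1, 0, 1]
/-- `ytx²ysx² ≈ ytxyxsx²` -/
def T5 : Prop := S [1, 2, 0, 0, 1, 3, 0, 0] [1, 2, 0, 1, 0, 3, 0, 0]
/-- `xy²tx ≈ yxytx` -/
def T6 : Prop := S [0, 1, 1, 2, 0] [1, 0, 1, 2, 0]
/-- `x²ytx²sy ≈ xyxtx²sy` -/
def T7 : Prop := S [0, 0, 1, 2, 0, 0, 3, 1] [0, 1, 0, 2, 0, 0, 3, 1]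
/-- `xyty²sxry² ≈ yxty²sxry²` -/
def T8 : Prop := S [0, 1, 2, 1, 1, 3, 0, 4, 1, 1] [1, 0, 2, 1, 1, 3, 0, 4, 1, 1]

/-- h2, h3, h4, h5 of note 3988 -/
def SysH : Prop := BaseH n S ∧ R n S ∧
  ((R0 S ∧ L n S) ∨ (H1 S ∧ H2 S ∧ H3 S ∧ H4 S ∧ E1 S) ∨
    ((T1 S ∧ T2 S ∧ T3 S ∧ T4 S ∧ T5 S ∧ T6 S ∧ T7 S ∧ E2 S) ∧ ((J n S ∧ T8 S) ∨ K n S)))

end

/-- the mirror image of a relation between words -/
def Rev (S : List ℕ → List ℕ → Prop) : List ℕ → List ℕ → Prop := fun u v => S u.reverse v.reverse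

end Pool.Agent.MWZ
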