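import Pool.Agent.MWZ.Defs

/-!
# The final theorems of the classification for index two: statements and assembly (MP_23468a_al)

`ThmS2`: all varieties for which `xyx` is an isoterm and `S1`, `S2` hold.  `ThmIso`: all varieties for
which `xyx` is an isoterm.  The block theorems are hypotheses (`NecA`, `SufA`, `NecH`, `SufH`).
-/

namespace Pool.Agent.MWZ

open Pool.Agent.Helper14_MV Pool.Agent.Helper2_MV Pool.Agent.MVO

/-! ### block theorems for fully invariant congruences -/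

/-- NECESSITY over `S1`, `S2` (blocks MWN, MWD). -/
def NecA : Prop := ∀ (n : ℕ) (β : FIC), 1 ≤ n → Per n (RR β) → Iso3 β → S1 (RR β) → S2 (RR β) →
  ModF β → SysA n (RR β)

/-- SUFFICIENCY over `S1`, `S2` (block MWA). -/
def SufA : Prop := ∀ (n : ℕ) (β : FIC), 1 ≤ n → Per n (RR β) → SysA n (RR β) → ModF β

/-- CLASS DIVISION (block MWD) together with the necessity in the LR world (block MWN). -/
def NecH : Prop :=
  ∀ (n : ℕ) (β : FIC), 1 ≤ n → Per n (RR β) → Iso3 β → ModF β →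
    ¬ (S1 (RR β) ∧ S2 (RR β)) → ¬ (S1 (RR (FIC.op β)) ∧ S2 (RR (FIC.op β))) →
      (SysH n (RR β) ∨ SysH n (RR (FIC.op β)))

/-- SUFFICIENCY in the LR world (block MWH). -/
def SufH : Prop := ∀ (n : ℕ) (β : FIC), 1 ≤ n → Per n (RR β) → SysH n (RR β) → ModF β

/-- duality on lists (row OPR of MWF without `Ap`) -/
def Opr : Prop := ∀ β : FIC, (∀ l l' : List ℕ, RR (FIC.op β) l l' ↔ RR β l.reverse l'.reverse) ∧
  (ModF β → ModF (FIC.op β)) ∧ FIC.op (FIC.op β) = β

/-! ### the final theorems for varieties -/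

/-- the relation `u ≈ v` is satisfied by `V` -/
def VS (V : Variety) : List ℕ → List ℕ → Prop :=
  fun u v => V.Sat (FreeMonoid.ofList u) (FreeMonoid.ofList v)

/-- `xyx` is an isoterm for `V` -/
def Xyx (V : Variety) : Prop := ∀ w, V.Sat (lx * ly * lx) w → w = lx * ly * lx

/-- `x²` is an isoterm for `V` -/
def Sqr (V : Variety) : Prop := ∀ w, V.Sat (lx ^ 2) w → w = lx ^ 2

/-- all high powers are central in `V` -/
def Hpc (V : Variety) : Prop := ∃ k, ∀ m, k ≤ m → V.Sat (lx ^ m * ly) (ly * lx ^ m)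

/-- **THEOREM S2.**  All varieties with `x² ≈ x^(n+2)`, `xytxsy ≈ yxtxsy`, `xtxysy ≈ xtyxsy` for which
`xyx` is an isoterm. -/
def ThmS2 : Prop := ∀ (V : Variety) (n : ℕ), 1 ≤ n → Per n (VS V) → Xyx V → S1 (VS V) → S2 (VS V) →
  (V.ModularLattice ↔ SysA n (VS V))

/-- THEOREM ISO for one period, e.g. `n = 1`, the aperiodic varieties. -/
def NecH1 (n : ℕ) : Prop :=
  ∀ β : FIC, Per n (RR β) → Iso3 β → ModF β → ¬ (S1 (RR β) ∧ S2 (RR β)) →
    ¬ (S1 (RR (FIC.op β)) ∧ S2 (RR (FIC.op β))) → (SysH n (RR β) ∨ SysH n (RR (FIC.op β)))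

/-- sufficiency for one period -/
def SufH1 (n : ℕ) : Prop := ∀ β : FIC, Per n (RR β) → SysH n (RR β) → ModF β

/-- **THEOREM ISO** for one period -/
def ThmIso1 (n : ℕ) : Prop := ∀ V : Variety, Per n (VS V) → Xyx V →
  (V.ModularLattice ↔
    (SysA n (VS V) ∨ SysA n (Rev (VS V)) ∨ SysH n (VS V) ∨ SysH n (Rev (VS V))))

/-- **THEOREM ISO.**  All varieties for which `xyx` is an isoterm. -/
def ThmIso : Prop := ∀ V : Variety, Xyx V →
  (V.ModularLattice ↔
    (Hpc V ∧ (Sys.Good (VS V) ∨ Sys.Good (Rev (VS V)))) ∨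
    ∃ n, 1 ≤ n ∧ Per n (VS V) ∧
      (SysA n (VS V) ∨ SysA n (Rev (VS V)) ∨ SysH n (VS V) ∨ SysH n (Rev (VS V))))

end Pool.Agent.MWZ
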