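import Pool.Agent.MWZ.Stmts
import Pool.Agent.MWB.Defs

/-!
# The full classification: statements (MP_23468a_al)

`SB n S`, `SG n S` are the systems of identities for the varieties with `xyx ≈ x^(n+1)yx^(n+1)` and
with `xyx ≈ xyx^(n+1)`; they are parameters of the assembly.
-/

namespace Pool.Agent.MWZ

open Pool.Agent.Helper14_MV Pool.Agent.Helper2_MV Pool.Agent.MVO

/-- a system of identities -/
abbrev Sy := ℕ → (List ℕ → List ℕ → Prop) → Prop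

/-- `xyx ≈ x²y` -/
def Al (S : List ℕ → List ℕ → Prop) : Prop := S [0, 1, 0] [0, 0, 1]

/-- `xyx ≈ x^(n+1)yx^(n+1)` -/
def Be (n : ℕ) (S : List ℕ → List ℕ → Prop) : Prop := S [0, 1, 0] (X (n + 1) ++ 1 :: X (n + 1))

/-- `xyx ≈ xyx^(n+1)` -/
def Ga (n : ℕ) (S : List ℕ → List ℕ → Prop) : Prop := S [0, 1, 0] (0 :: 1 :: X (n + 1))

/-- all systems for index two and period `n` -/
def SysP (SB SG : Sy) (n : ℕ) (S : List ℕ → List ℕ → Prop) : Prop :=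
  (Al S ∧ R0 S) ∨ (Be n S ∧ SB n S) ∨ (Ga n S ∧ SG n S) ∨ SysA n S ∨ SysH n S

/-! ### block theorems of the beta and of the gamma world for one period -/

/-- necessity, beta world -/
def NecB1 (SB : Sy) (n : ℕ) : Prop := ∀ β : FIC, Per n (RR β) → MWB.NCR β → Be n (RR β) → ModF β →
  (SB n (RR β) ∨ SB n (RR (FIC.op β)))

/-- sufficiency, beta world -/
def SufB1 (SB : Sy) (n : ℕ) : Prop := ∀ β : FIC, Per n (RR β) → MWB.NCR β → Be n (RR β) →
  SB n (RR β) → ModF β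

/-- necessity, gamma world -/
def NecG1 (SG : Sy) (n : ℕ) : Prop := ∀ β : FIC, Per n (RR β) → MWB.NCR β → Ga n (RR β) → ModF β →
  SG n (RR β)

/-- sufficiency, gamma world -/
def SufG1 (SG : Sy) (n : ℕ) : Prop := ∀ β : FIC, Per n (RR β) → MWB.NCR β → Ga n (RR β) →
  SG n (RR β) → ModF β

/-! ### the full theorem -/

/-- the theorem for varieties with `x² ≈ x^(n+2)` -/
def ThmPer (SB SG : Sy) (n : ℕ) : Prop := ∀ V : Variety, Per n (VS V) →
  (V.ModularLattice ↔ V.CompletelyRegular ∨ SysP SB SG n (VS V) ∨ SysP SB SG n (Rev (VS V)))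

/-- the theorem for all varieties -/
def ThmFull (SB SG : Sy) : Prop := ∀ V : Variety,
  (V.ModularLattice ↔ V.CompletelyRegular ∨
    (Hpc V ∧ (¬ Xyx V ∨ Sys.Good (VS V) ∨ Sys.Good (Rev (VS V)))) ∨
    ∃ n, 1 ≤ n ∧ Per n (VS V) ∧ (SysP SB SG n (VS V) ∨ SysP SB SG n (Rev (VS V))))

/-- the theorem for aperiodic varieties, `x^(k+1) ≈ x^k` -/
def ThmAper (SB SG : Sy) : Prop := ∀ V : Variety, (∃ k, V.Sat (lx ^ (k + 1)) (lx ^ k)) →
  (V.ModularLattice ↔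
    (Hpc V ∧ (¬ Xyx V ∨ Sys.Good (VS V) ∨ Sys.Good (Rev (VS V)))) ∨
    V.Sat lx 1 ∨ V.Sat (lx ^ 2) lx ∨
    (V.Sat (lx ^ 2) (lx ^ 3) ∧ (SysP SB SG 1 (VS V) ∨ SysP SB SG 1 (Rev (VS V)))))

end Pool.Agent.MWZ
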